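import Pool.Agent.W_3f3beb_h30.LocA

/-!
# MP_3f3beb_al: locally graded Poincaré duality groups of dimension 3 and 4

A Poincaré duality group of dimension 3 or 4 of type FL (for example the fundamental group of a
closed aspherical manifold of dimension 3 or 4), all of whose infinite finitely generated subgroups
have a proper subgroup of finite index (for example a residually finite one), does not have
intermediate growth.

`PDC.IsPDGroup G n` says that `G` is a Poincaré duality group of dimension `n + 1` of type FL.
-/

set_option autoImplicit false

namespace Pool.Agent.Results.MP_3f3beb_al.LocallyGraded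

theorem result : ∀ (G : Type) [Group G], (PDC.IsPDGroup G 2 ∨ PDC.IsPDGroup G 3) →
    (∀ M : Subgroup G, M.FG → Infinite M → ∃ N : Subgroup G, N < M ∧ N.relIndex M ≠ 0) →
    ¬ PDC.IntermediateGrowth G ∧
      (PDC.SubexpGrowth G → Group.IsVirtuallyNilpotent G) :=
  fun _ _ h hM => PDG.LocA_pdc h hM

end Pool.Agent.Results.MP_3f3beb_al.LocallyGraded
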